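import Mathlib

set_option autoImplicit false

namespace Pool.Agent.Results.MP_5a9afa_al.NotClosed

/-- Unit stable range one for an element. -/
def USR {R : Type*} [Ring R] (a : R) : Prop :=
  ∀ b : R, (∃ r s : R, r * a + s * b = 1) → ∃ u : Rˣ, IsUnit (a + u * b)

def R : Subring (Matrix (Fin 2) (Fin 2) ℤ) where
  carrier := {m | 3 ∣ m 0 1}
  one_mem' := by simp
  zero_mem' := by simp
  add_mem' := fun h h' => dvd_add h h'
  neg_mem' := fun h => (dvd_neg).2 h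
  mul_mem' := fun {a b} h h' => by
    simp only [Set.mem_ofPred_eq, Matrix.mul_apply, Fin.sum_univ_two]
    exact dvd_add (h'.mul_left _) (h.mul_right _)

theorem unit_iff (m : R) : IsUnit m ↔ IsUnit (m.1 0 0 * m.1 1 1 - m.1 0 1 * m.1 1 0) := by
  rw [← Matrix.det_fin_two]
  refine ⟨fun h => (Matrix.isUnit_iff_isUnit_det _).1 (h.map R.subtype), fun h => ?_⟩
  have h1 : m.1.det * m.1.det = 1 := Int.isUnit_mul_self h
  refine ⟨⟨m, ⟨m.1.det • m.1.adjugate, ?_⟩, Subtype.ext ?_, Subtype.ext ?_⟩, rfl⟩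
  · change (3 : ℤ) ∣ (m.1.det • m.1.adjugate) 0 1
    rw [Matrix.adjugate_fin_two]
    simpa using (show 3 ∣ m.1 0 1 from m.2).mul_left _
  · change m.1 * (m.1.det • m.1.adjugate) = 1
    rw [Matrix.mul_smul, Matrix.mul_adjugate, smul_smul, h1, one_smul]
  · change (m.1.det • m.1.adjugate) * m.1 = 1
    rw [Matrix.smul_mul, Matrix.adjugate_mul, smul_smul, h1, one_smul]

theorem key (p q x y d : ℤ) (h : p * x + q * y = 1) (hx : ¬ 3 ∣ x) (hd : ¬ 3 ∣ d) :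
    ∃ v w α β : ℤ, IsUnit (d - 3 * (v * x + w * y)) ∧ α * w - 3 * β * v = 1 := by
  obtain ⟨m, hm⟩ : ∃ m : ℤ, IsUnit (d - 3 * m) := by
    rcases (show d % 3 = 1 ∨ d % 3 = 2 by omega) with h1 | h1
    · exact ⟨d / 3, Int.isUnit_iff.2 (by omega)⟩
    · exact ⟨d / 3 + 1, Int.isUnit_iff.2 (by omega)⟩
  obtain ⟨t, ht, h3⟩ : ∃ t : ℤ, t * t = 1 ∧ ¬ 3 ∣ m * q + t * x := by
    by_cases h1 : 3 ∣ m * q + 1 * x
    · exact ⟨-1, by norm_num, by omega⟩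
    · exact ⟨1, by norm_num, h1⟩
  have c1 : IsCoprime (m * q + t * x) (m * p - t * y) :=
    ⟨p * t, -(q * t), by linear_combination (t * t) * h + ht⟩
  have c2 : IsCoprime (m * q + t * x) 3 :=
    ((Prime.coprime_iff_not_dvd Int.prime_three).2 h3).symm
  obtain ⟨α, β, hab⟩ := c2.mul_right c1
  refine ⟨m * p - t * y, m * q + t * x, α, -β, ?_, by linear_combination hab⟩
  have : (m * p - t * y) * x + (m * q + t * x) * y = m := by linear_combination m * h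
  rwa [this]

def mk (a b c d : ℤ) : R := ⟨!![a, 3 * b; c, d], by
  change (3 : ℤ) ∣ !![a, 3 * b; c, d] 0 1
  simp⟩

theorem entries (r s a b : R) (h : r * a + s * b = 1) (i j : Fin 2) :
    r.1 i 0 * a.1 0 j + r.1 i 1 * a.1 1 j + (s.1 i 0 * b.1 0 j + s.1 i 1 * b.1 1 j) =
      (1 : Matrix (Fin 2) (Fin 2) ℤ) i j := by
  have := congrFun (congrFun (congrArg Subtype.val h) i) j
  simpa [Matrix.mul_apply, Fin.sum_univ_two] using this

theorem usr_a : USR (mk 0 1 0 0) := by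
  rintro b ⟨r, s, h⟩
  have h00 := entries _ _ _ _ h 0 0
  have h01 := entries _ _ _ _ h 0 1
  have h10 := entries _ _ _ _ h 1 0
  have h11 := entries _ _ _ _ h 1 1
  simp [mk] at h00 h01 h10 h11
  obtain ⟨s', hs⟩ : 3 ∣ s.1 0 1 := s.2
  have hd : ¬ 3 ∣ b.1 0 0 * b.1 1 1 - b.1 0 1 * b.1 1 0 := by
    rintro ⟨k, hk⟩
    have : 3 * (k * (s.1 0 0 * s.1 1 1 - s.1 0 1 * s.1 1 0) + r.1 1 0) = 1 := by
      linear_combination (-(s.1 0 0 * s.1 1 1 - s.1 0 1 * s.1 1 0)) * hk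
        + (s.1 1 0 * b.1 0 1 + s.1 1 1 * b.1 1 1) * h00 + h11
        - (s.1 0 0 * b.1 0 1 + s.1 0 1 * b.1 1 1) * h10
    omega
  have hx : ¬ 3 ∣ b.1 0 0 := by
    rintro ⟨k, hk⟩
    have : 3 * (s.1 0 0 * k + s' * b.1 1 0) = 1 := by
      linear_combination h00 - s.1 0 0 * hk - b.1 1 0 * hs
    omega
  obtain ⟨v, w, α, β, h1, h2⟩ := key _ _ _ _ _ h00 hx hd
  have hu : IsUnit (mk α β v w) := by
    rw [unit_iff]
    have : α * w - 3 * β * v = 1 := h2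
    simp [mk, this]
  refine ⟨hu.unit, (unit_iff _).2 ?_⟩
  convert h1 using 1
  simp [mk, Matrix.vecMul, dotProduct, Fin.sum_univ_two]
  linear_combination (b.1 0 0 * b.1 1 1 - b.1 0 1 * b.1 1 0) * h2

theorem usr_b : USR (mk 0 0 1 0) := by
  rintro b ⟨r, s, h⟩
  have h00 := entries _ _ _ _ h 0 0
  have h01 := entries _ _ _ _ h 0 1
  have h10 := entries _ _ _ _ h 1 0
  have h11 := entries _ _ _ _ h 1 1
  simp [mk] at h00 h01 h10 h11
  obtain ⟨r', hr⟩ : 3 ∣ r.1 0 1 := r.2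
  obtain ⟨c, hc⟩ : 3 ∣ b.1 0 1 := b.2
  have hd : ¬ 3 ∣ b.1 0 0 * b.1 1 1 - b.1 0 1 * b.1 1 0 := by
    rintro ⟨k, hk⟩
    have : 3 * (k * (s.1 0 0 * s.1 1 1 - s.1 0 1 * s.1 1 0) + r') = 1 := by
      linear_combination (-(s.1 0 0 * s.1 1 1 - s.1 0 1 * s.1 1 0)) * hk
        + (s.1 0 0 * b.1 0 0 + s.1 0 1 * b.1 1 0) * h11 + h00
        - (s.1 1 0 * b.1 0 0 + s.1 1 1 * b.1 1 0) * h01 - hr
    omega
  have hx : ¬ 3 ∣ b.1 1 1 := by
    rintro ⟨k, hk⟩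
    have : 3 * (s.1 1 0 * c + s.1 1 1 * k) = 1 := by
      linear_combination h11 - s.1 1 1 * hk - s.1 1 0 * hc
    omega
  obtain ⟨v, w, α, β, h1, h2⟩ := key (s.1 1 1) (3 * s.1 1 0) (b.1 1 1) c _
    (by linear_combination h11 - s.1 1 0 * hc) hx hd
  have hu : IsUnit (mk w v β α) := by
    rw [unit_iff]
    have : w * α - 3 * v * β = 1 := by linear_combination h2
    simp [mk, this]
  refine ⟨hu.unit, (unit_iff _).2 ?_⟩
  convert h1 using 1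
  simp [mk, Matrix.vecMul, dotProduct, Fin.sum_univ_two]
  linear_combination (b.1 0 0 * b.1 1 1 - b.1 0 1 * b.1 1 0) * h2 - w * hc

theorem ab : mk 0 1 0 0 * mk 0 0 1 0 = mk 3 0 0 0 := by
  apply Subtype.ext
  ext i j
  fin_cases i <;> fin_cases j <;> simp [mk]

theorem result : ∃ (A : Type) (_ : Ring A) (a b : A), USR a ∧ USR b ∧ ¬ USR (a * b) ∧
    ¬ ∃ u : Aˣ, IsUnit (u * (a * b) - 1) := by
  have main : ¬ ∃ u : Rˣ, IsUnit (mk 3 0 0 0 + u * 1) := by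
    rintro ⟨u, hu⟩
    have h1 := Int.isUnit_iff.1 ((unit_iff _).1 hu)
    have h2 := Int.isUnit_iff.1 ((unit_iff _).1 u.isUnit)
    obtain ⟨c, hc⟩ : 3 ∣ u.1.1 0 1 := u.1.2
    simp [mk] at h1
    have e : (3 + u.1.1 0 0) * u.1.1 1 1 - u.1.1 0 1 * u.1.1 1 0 =
      3 * u.1.1 1 1 + (u.1.1 0 0 * u.1.1 1 1 - u.1.1 0 1 * u.1.1 1 0) := by ring
    rw [e] at h1
    have h0 : u.1.1 1 1 = 0 := by omega
    rw [h0, hc, mul_assoc] at h2
    omega
  refine ⟨R, inferInstance, mk 0 1 0 0, mk 0 0 1 0, usr_a, usr_b, ?_, ?_⟩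
  · rw [ab]
    exact fun h => main (h 1 ⟨0, 1, by simp⟩)
  · rw [ab]
    rintro ⟨u, hu⟩
    refine main ⟨-u⁻¹, ?_⟩
    convert (u⁻¹).isUnit.mul hu using 1
    simp [mul_add, sub_eq_add_neg]

end Pool.Agent.Results.MP_5a9afa_al.NotClosed
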